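import Pool.Agent.V8H87.GG.Cat
import Pool.Agent.V8H15.BT.Alg

/-!
# Pairings of an object with values in an object of dimension one, and their Brauer towers
-/

set_option autoImplicit false
set_option linter.unusedSectionVars false

open CategoryTheory Limits MonoidalCategory Module
open Pool.Agent.Y112.SR Pool.Agent.Y112.KD Pool.Agent.N64.AF
open Pool.Agent.Y116.MT (tr)
open Pool.Agent.V8H87.GG Pool.Agent.V8H15.BT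

namespace Pool.Agent.V8H57.BT

universe v u w

section

variable {C : Type u} [Category.{v} C] [MonoidalCategory C] [SymmetricCategory C]

/-- A symmetric pairing of `M` with values in `L` and its copairing. -/
structure Pairing (M L : C) where
  b : M ⊗ M ⟶ L
  c : L ⟶ M ⊗ M
  b_symm : (β_ M M).hom ≫ b = b
  c_symm : c ≫ (β_ M M).hom = c
  zig : c ▷ M ≫ (α_ M M M).hom ≫ M ◁ b = (β_ L M).hom

/-- An operator on the last two factors. -/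
def op (Q : C) {M : C} (g : M ⊗ M ⟶ M ⊗ M) : (Q ⊗ M) ⊗ M ⟶ (Q ⊗ M) ⊗ M :=
  (α_ Q M M).hom ≫ Q ◁ g ≫ (α_ Q M M).inv

variable {M L : C}

lemma op_comp (Q : C) (g h : M ⊗ M ⟶ M ⊗ M) : op Q g ≫ op Q h = op Q (g ≫ h) := by
  simp [op]

lemma sw_eq (Q : C) : sw Q M = op Q (β_ M M).hom := rfl

lemma op_nat {Q Q' : C} (a : Q ⟶ Q') (g : M ⊗ M ⟶ M ⊗ M) :
    (a ▷ M) ▷ M ≫ op Q' g = op Q g ≫ (a ▷ M) ▷ M := by
  simp only [op, Category.assoc]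
  rw [associator_naturality_left_assoc, ← whisker_exchange_assoc, ← associator_inv_naturality_left]

lemma op1 (Q : C) (g : M ⊗ M ⟶ M ⊗ M) : op (Q ⊗ M) g = 𝟙 (((Q ⊗ M) ⊗ M) ⊗ M) ⊗≫
    Q ◁ (M ◁ g) ⊗≫ 𝟙 (((Q ⊗ M) ⊗ M) ⊗ M) := by
  rw [op]
  monoidal

lemma op2 (Q : C) (g : M ⊗ M ⟶ M ⊗ M) : op Q g ▷ M = 𝟙 (((Q ⊗ M) ⊗ M) ⊗ M) ⊗≫
    Q ◁ (g ▷ M) ⊗≫ 𝟙 (((Q ⊗ M) ⊗ M) ⊗ M) := by
  rw [op]
  monoidal

/-- Moving a factor across an operator. -/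
lemma op_move (Q : C) (g : M ⊗ M ⟶ M ⊗ M) :
    op (Q ⊗ M) g ≫ (sw Q M ▷ M) ≫ sw (Q ⊗ M) M = (sw Q M ▷ M) ≫ sw (Q ⊗ M) M ≫ (op Q g ▷ M) := by
  have h1 : M ◁ g ≫ (β_ M (M ⊗ M)).hom = (β_ M (M ⊗ M)).hom ≫ g ▷ M :=
    BraidedCategory.braiding_naturality_right M g
  have h2 : (β_ M (M ⊗ M)).hom = (α_ M M M).inv ≫ (β_ M M).hom ▷ M ≫ (α_ M M M).hom ≫
      M ◁ (β_ M M).hom ≫ (α_ M M M).inv := BraidedCategory.braiding_tensor_right_hom M M M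
  have h3 : M ◁ g ≫ 𝟙 _ ⊗≫ (β_ M M).hom ▷ M ⊗≫ M ◁ (β_ M M).hom ⊗≫ 𝟙 ((M ⊗ M) ⊗ M) =
      𝟙 (M ⊗ M ⊗ M) ⊗≫ (β_ M M).hom ▷ M ⊗≫ M ◁ (β_ M M).hom ⊗≫ g ▷ M := by
    calc _ = M ◁ g ≫ ((α_ M M M).inv ≫ (β_ M M).hom ▷ M ≫ (α_ M M M).hom ≫
          M ◁ (β_ M M).hom ≫ (α_ M M M).inv) := by monoidal
      _ = ((α_ M M M).inv ≫ (β_ M M).hom ▷ M ≫ (α_ M M M).hom ≫
          M ◁ (β_ M M).hom ≫ (α_ M M M).inv) ≫ g ▷ M := by rw [← h2, h1]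
      _ = _ := by monoidal
  rw [sw_eq, sw_eq, op1, op1, op2, op2]
  calc _ = 𝟙 (((Q ⊗ M) ⊗ M) ⊗ M) ⊗≫ Q ◁ (M ◁ g ≫ 𝟙 _ ⊗≫ (β_ M M).hom ▷ M ⊗≫ M ◁ (β_ M M).hom
        ⊗≫ 𝟙 ((M ⊗ M) ⊗ M)) ⊗≫ 𝟙 (((Q ⊗ M) ⊗ M) ⊗ M) := by monoidal
    _ = 𝟙 (((Q ⊗ M) ⊗ M) ⊗ M) ⊗≫ Q ◁ (𝟙 (M ⊗ M ⊗ M) ⊗≫ (β_ M M).hom ▷ M ⊗≫
        M ◁ (β_ M M).hom ⊗≫ g ▷ M) ⊗≫ 𝟙 (((Q ⊗ M) ⊗ M) ⊗ M) := by rw [h3]
    _ = _ := by monoidal

/-- The exchange of the factors `0` and `2`. -/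
def s02 (Q M : C) : ((Q ⊗ M) ⊗ M) ⊗ M ⟶ ((Q ⊗ M) ⊗ M) ⊗ M :=
  sw (Q ⊗ M) M ≫ (sw Q M ▷ M) ≫ sw (Q ⊗ M) M

variable (p : Pairing M L)

lemma conj (Q : C) : op (Q ⊗ M) (p.b ≫ p.c) ≫ s02 Q M = s02 Q M ≫ op Q (p.b ≫ p.c) ▷ M := by
  have h1 : op (Q ⊗ M) (p.b ≫ p.c) ≫ sw (Q ⊗ M) M = op (Q ⊗ M) (p.b ≫ p.c) := by
    rw [sw_eq, op_comp, Category.assoc, p.c_symm]
  have h2 : sw Q M ≫ op Q (p.b ≫ p.c) = op Q (p.b ≫ p.c) := by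
    rw [sw_eq, op_comp, ← Category.assoc, p.b_symm]
  calc op (Q ⊗ M) (p.b ≫ p.c) ≫ s02 Q M
      = (op (Q ⊗ M) (p.b ≫ p.c) ≫ sw (Q ⊗ M) M) ≫ (sw Q M ▷ M) ≫ sw (Q ⊗ M) M := by
        rw [s02, Category.assoc]
    _ = (sw Q M ▷ M) ≫ sw (Q ⊗ M) M ≫ (op Q (p.b ≫ p.c) ▷ M) := by rw [h1, op_move]
    _ = (sw Q M ▷ M) ≫ sw (Q ⊗ M) M ≫ ((sw Q M ≫ op Q (p.b ≫ p.c)) ▷ M) := by rw [h2]
    _ = _ := by
        rw [s02, braid]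
        simp only [comp_whiskerRight, Category.assoc]

/-- The core of the relation of Temperley and Lieb. -/
lemma e_e (Q : C) : (op Q (p.b ≫ p.c) ▷ M) ≫ op (Q ⊗ M) (p.b ≫ p.c) =
    s02 Q M ≫ op (Q ⊗ M) (p.b ≫ p.c) := by
  have h1 : (p.b ≫ p.c) ▷ M ≫ (α_ M M M).hom ≫ M ◁ (p.b ≫ p.c) =
      (β_ (M ⊗ M) M).hom ≫ M ◁ (p.b ≫ p.c) := by
    calc (p.b ≫ p.c) ▷ M ≫ (α_ M M M).hom ≫ M ◁ (p.b ≫ p.c)
        = p.b ▷ M ≫ (p.c ▷ M ≫ (α_ M M M).hom ≫ M ◁ p.b) ≫ M ◁ p.c := by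
          simp only [comp_whiskerRight, MonoidalCategory.whiskerLeft_comp, Category.assoc]
      _ = _ := by
        rw [p.zig, BraidedCategory.braiding_naturality_left_assoc,
          MonoidalCategory.whiskerLeft_comp]
  have h2 : (β_ (M ⊗ M) M).hom = (α_ M M M).hom ≫ M ◁ (β_ M M).hom ≫ (α_ M M M).inv ≫
      (β_ M M).hom ▷ M ≫ (α_ M M M).hom := BraidedCategory.braiding_tensor_left_hom M M M
  have h3 : sw (Q ⊗ M) M ≫ op (Q ⊗ M) (p.b ≫ p.c) = op (Q ⊗ M) (p.b ≫ p.c) := by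
    rw [sw_eq, op_comp, ← Category.assoc, p.b_symm]
  have h4 : s02 Q M ≫ op (Q ⊗ M) (p.b ≫ p.c) = sw (Q ⊗ M) M ≫ (sw Q M ▷ M) ≫
      op (Q ⊗ M) (p.b ≫ p.c) := by
    rw [s02, Category.assoc, Category.assoc, h3]
  rw [h4, sw_eq, sw_eq, op1, op1, op2, op2]
  calc _ = 𝟙 (((Q ⊗ M) ⊗ M) ⊗ M) ⊗≫ Q ◁ ((p.b ≫ p.c) ▷ M ≫ (α_ M M M).hom ≫ M ◁ (p.b ≫ p.c))
        ⊗≫ 𝟙 (((Q ⊗ M) ⊗ M) ⊗ M) := by monoidal
    _ = 𝟙 (((Q ⊗ M) ⊗ M) ⊗ M) ⊗≫ Q ◁ (((α_ M M M).hom ≫ M ◁ (β_ M M).hom ≫ (α_ M M M).inv ≫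
      (β_ M M).hom ▷ M ≫ (α_ M M M).hom) ≫ M ◁ (p.b ≫ p.c)) ⊗≫ 𝟙 (((Q ⊗ M) ⊗ M) ⊗ M) := by
        rw [h1, h2]
    _ = _ := by monoidal

end

section

variable {C : Type u} [Category.{v} C] [MonoidalCategory C] [SymmetricCategory C]
  [RightRigidCategory C] {M L : C} (p : Pairing M L)

lemma ptr_left {N Y : C} (a : N ⟶ N) (x : N ⊗ Y ⟶ N ⊗ Y) : ptr (a ▷ Y ≫ x) = a ≫ ptr x := by
  have := Pool.Agent.Y112.KD.ptr_comp a (𝟙 N) x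
  simpa using this

lemma op_f (Q : C) : op Q (p.b ≫ p.c) ≫ (Q ⊗ M) ◁ ptr (p.b ≫ p.c) = op Q (p.b ≫ p.c) := by
  have h1 : ptr (op (Q ⊗ M) (p.b ≫ p.c)) = (Q ⊗ M) ◁ ptr (p.b ≫ p.c) := ptr_assoc _
  have h2 : sw Q M ≫ op Q (p.b ≫ p.c) = op Q (p.b ≫ p.c) := by
    rw [sw_eq, op_comp, ← Category.assoc, p.b_symm]
  have h3 : op Q (p.b ≫ p.c) ≫ sw Q M = op Q (p.b ≫ p.c) := by
    rw [sw_eq, op_comp, Category.assoc, p.c_symm]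
  have h4 : sw (Q ⊗ M) M ≫ (sw Q M ▷ M) ≫ op (Q ⊗ M) (p.b ≫ p.c) =
      (op Q (p.b ≫ p.c) ▷ M) ≫ sw (Q ⊗ M) M ≫ (sw Q M ▷ M) := by
    have e1 : (sw Q M ▷ M) ≫ (sw Q M ▷ M) = 𝟙 _ := by
      rw [← comp_whiskerRight, sw_sw, id_whiskerRight]
    have e2 := sw_sw (Q ⊗ M) M
    have e3 := op_move Q (p.b ≫ p.c)
    calc sw (Q ⊗ M) M ≫ (sw Q M ▷ M) ≫ op (Q ⊗ M) (p.b ≫ p.c)
        = sw (Q ⊗ M) M ≫ (sw Q M ▷ M) ≫ op (Q ⊗ M) (p.b ≫ p.c) ≫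
            (sw Q M ▷ M) ≫ (sw (Q ⊗ M) M ≫ sw (Q ⊗ M) M) ≫ (sw Q M ▷ M) := by
          rw [e2, Category.id_comp, e1, Category.comp_id]
      _ = sw (Q ⊗ M) M ≫ (sw Q M ▷ M) ≫ (op (Q ⊗ M) (p.b ≫ p.c) ≫
            (sw Q M ▷ M) ≫ sw (Q ⊗ M) M) ≫ sw (Q ⊗ M) M ≫ (sw Q M ▷ M) := by
          simp only [Category.assoc]
      _ = sw (Q ⊗ M) M ≫ ((sw Q M ▷ M) ≫ (sw Q M ▷ M)) ≫ sw (Q ⊗ M) M ≫
            (op Q (p.b ≫ p.c) ▷ M) ≫ sw (Q ⊗ M) M ≫ (sw Q M ▷ M) := by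
          rw [e3]
          simp only [Category.assoc]
      _ = (sw (Q ⊗ M) M ≫ sw (Q ⊗ M) M) ≫
            (op Q (p.b ≫ p.c) ▷ M) ≫ sw (Q ⊗ M) M ≫ (sw Q M ▷ M) := by
          rw [e1, Category.id_comp, Category.assoc]
      _ = _ := by rw [e2, Category.id_comp]
  have h5 := congrArg ptr (e_e p Q)
  rw [ptr_left, h1, s02, braid] at h5
  rw [h5]
  simp only [Category.assoc]
  rw [ptr_left, h4]
  have h6 : ptr ((op Q (p.b ≫ p.c) ▷ M) ≫ sw (Q ⊗ M) M ≫ (sw Q M ▷ M)) =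
      op Q (p.b ≫ p.c) ≫ ptr (sw (Q ⊗ M) M) ≫ sw Q M := Pool.Agent.Y112.KD.ptr_comp _ _ _
  rw [h6, ptr_sw, Category.id_comp, h3, h2]

lemma bc_f : p.b ≫ p.c ≫ M ◁ ptr (p.b ≫ p.c) = p.b ≫ p.c := by
  have h1 := op_f p (𝟙_ C)
  have h2 : op (𝟙_ C) (p.b ≫ p.c) ≫ (𝟙_ C ⊗ M) ◁ ptr (p.b ≫ p.c) =
      op (𝟙_ C) ((p.b ≫ p.c) ≫ M ◁ ptr (p.b ≫ p.c)) := by
    simp only [op, Category.assoc]
    rw [← associator_inv_naturality_right]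
    simp only [MonoidalCategory.whiskerLeft_comp, Category.assoc]
  rw [h2] at h1
  simp only [op] at h1
  rw [Iso.cancel_iso_hom_left, Iso.cancel_iso_inv_right, whiskerLeft_iff, Category.assoc] at h1
  exact h1

lemma f_whisker : ptr (p.b ≫ p.c) ▷ L = 𝟙 (M ⊗ L) := by
  set f := ptr (p.b ≫ p.c) with hf
  have h1 : p.b ≫ (p.c ≫ f ▷ M) = p.b ≫ p.c := by
    calc p.b ≫ (p.c ≫ f ▷ M) = p.b ≫ (p.c ≫ (β_ M M).hom) ≫ f ▷ M := by rw [p.c_symm]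
      _ = (p.b ≫ p.c ≫ M ◁ f) ≫ (β_ M M).hom := by
        simp only [Category.assoc]
        rw [BraidedCategory.braiding_naturality_right]
      _ = _ := by rw [bc_f, Category.assoc, p.c_symm]
  have h2 : ((β_ L M).inv ≫ p.c ▷ M ≫ (α_ M M M).hom) ≫ M ◁ p.b = 𝟙 _ := by
    simp only [Category.assoc]
    rw [p.zig, Iso.inv_hom_id]
  have h3 : M ◁ (p.c ≫ f ▷ M) = M ◁ p.c := by
    have e0 : ∀ z : L ⟶ M ⊗ M, ((β_ L M).inv ≫ p.c ▷ M ≫ (α_ M M M).hom) ≫ M ◁ (p.b ≫ z) =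
        M ◁ z := by
      intro z
      rw [MonoidalCategory.whiskerLeft_comp, ← Category.assoc, h2, Category.id_comp]
    rw [← e0, h1, e0]
  have h4 : (p.c ≫ f ▷ M) ▷ M = p.c ▷ M := by
    rw [← cancel_mono (β_ (M ⊗ M) M).hom, BraidedCategory.braiding_naturality_left,
      BraidedCategory.braiding_naturality_left, h3]
  have h5 : (β_ L M).hom ≫ f ▷ L = (β_ L M).hom := by
    calc (β_ L M).hom ≫ f ▷ L = p.c ▷ M ≫ (α_ M M M).hom ≫ M ◁ p.b ≫ f ▷ L := by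
          rw [← p.zig]
          simp only [Category.assoc]
      _ = (p.c ≫ f ▷ M) ▷ M ≫ (α_ M M M).hom ≫ M ◁ p.b := by
          rw [whisker_exchange, comp_whiskerRight, Category.assoc,
            associator_naturality_left_assoc]
      _ = _ := by rw [h4, p.zig]
  rw [← cancel_epi (β_ L M).hom, h5, Category.comp_id]

end

section

variable {C : Type u} [Category.{v} C] [MonoidalCategory C] [SymmetricCategory C]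
  [Preadditive C] [Linear ℚ C] [MonoidalPreadditive C] [MonoidalLinear ℚ C]
  [RightRigidCategory C] {M L : C} (p : Pairing M L)

lemma ptr_bc (hL : tr (𝟙 L) = 𝟙 (𝟙_ C)) : ptr (p.b ≫ p.c) = 𝟙 M := by
  have h1 := congrArg ptr (f_whisker p)
  have h2 : ptr (ptr (p.b ≫ p.c) ▷ L) = ptr (p.b ≫ p.c) := by
    rw [← tensorHom_id, ptr_tensor _ _ 1 (by rw [hL, one_smul]), one_smul]
  have h3 : ptr (𝟙 (M ⊗ L)) = 𝟙 M := by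
    rw [← id_tensorHom_id, ptr_tensor _ _ 1 (by rw [hL, one_smul]), one_smul]
  rw [h2, h3] at h1
  exact h1

variable {K : Type w} [Field K]

/-- The Brauer tower of a symmetric pairing with values in an object of dimension one. -/
noncomputable def braOf (R : SuperRealisation C K) (hU : UnitQ C)
    (hL : trq hU L (1 : End L) = 1) : Bra (tower R hU M) where
  e n := op (tp M n) (p.b ≫ p.c)
  e_s n := by
    change sw (tp M n) M ≫ op (tp M n) (p.b ≫ p.c) = op (tp M n) (p.b ≫ p.c)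
    rw [sw_eq, op_comp, ← Category.assoc, p.b_symm]
  s_e n := by
    change op (tp M n) (p.b ≫ p.c) ≫ sw (tp M n) M = op (tp M n) (p.b ≫ p.c)
    rw [sw_eq, op_comp, Category.assoc, p.c_symm]
  e_comm n a := op_nat (a : tp M n ⟶ tp M n) (p.b ≫ p.c)
  pt_e n := by
    change ptr (op (tp M n) (p.b ≫ p.c)) = 𝟙 (tp M n ⊗ M)
    have h1 : ptr (op (tp M n) (p.b ≫ p.c)) = tp M n ◁ ptr (p.b ≫ p.c) := ptr_assoc _
    have h2 : tr (𝟙 L) = 𝟙 (𝟙_ C) := by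
      have := trq_spec hU (X := L) (1 : End L)
      rw [hL, one_smul] at this
      exact this
    rw [h1, ptr_bc p h2, MonoidalCategory.whiskerLeft_id]
  conj n := by
    have h1 : (tower R hU M).th (n + 3) (Equiv.swap 0 2) = (s02 (tp M n) M : End _) := by
      have := Bra.S_eq (tower R hU M) n
      rw [Bra.S] at this
      rw [this]
      change sw (tp M n ⊗ M) M ≫ (sw (tp M n) M ▷ M) ≫ sw (tp M n ⊗ M) M = s02 (tp M n) M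
      rfl
    rw [h1]
    exact conj p (tp M n)
  e_e n := by
    have h1 : (tower R hU M).th (n + 3) (Equiv.swap 0 2) = (s02 (tp M n) M : End _) := by
      have := Bra.S_eq (tower R hU M) n
      rw [Bra.S] at this
      rw [this]
      change sw (tp M n ⊗ M) M ≫ (sw (tp M n) M ▷ M) ≫ sw (tp M n ⊗ M) M = s02 (tp M n) M
      rfl
    rw [h1]
    exact e_e p (tp M n)

end

end Pool.Agent.V8H57.BT
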